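import Mathlib
import Pool.Agent.Helper844.FC.Final

/-!
# Deciding functional completeness of lists of group words

There is no algorithm that decides, given a finite list of words, whether the list is functionally
complete on every group.

Idea of the proof.  A recursively enumerable set of natural numbers is turned into a system of
quadratic equations over the integers (the theorem of Davis, Putnam, Robinson and Matiyasevich).
For every `n` a list of words is built: `x⁻¹`, a word `h(x,y)` with `h(u,v) = u v` for commuting
`u, v`, words that produce certificates (powers of words in `x, y` that are trivial when `x, y`
commute) step by step along a computation that solves the system, and two final words that give
`(x y)^1001` and `(x y)^1000` from the last certificate.  If the system is solvable, then `x y` is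
expressible and the list is complete on every group.  Otherwise the union of the two factors of
`ℤ * ℤ` maps to a proper subset, closed under all words of the list, of the quotient of `ℤ * ℤ` by
the wrong values of the words; that `x y` does not fall into the union is proved by small
cancellation over the free product.
-/

set_option autoImplicit false

namespace Pool.Agent.Results.MP_57bda5_lc.Undecidable

open Pool.Agent.Helper844.FC

/-- The set of finite lists of words that are functionally complete on every group is not
decidable. -/
theorem result.{u} : ¬ ComputablePred (fun B : List Word =>
    ∀ (G : Type u) [Group G], FunctionallyComplete G B) :=
  undecidable

end Pool.Agent.Results.MP_57bda5_lc.Undecidable
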